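import Mathlib
import Pool.Agent.Run7.h718.CmoMain

/-!
Kahane-Saias question (MP_768c9c_nt, Q1): omega results for the partial sums
`S_f(N) = ∑ n ∈ Icc 1 N, f n` of completely multiplicative `f : ℕ → ℂ`
(in particular of every CMO function).
-/

open Finset

/-- (1) If for every prime `p` either `|f(p)| ≤ 1/p` or `f(p)` is a nonnegative real, then
`limsup √N |S_f(N)| ≥ 1/|ζ(1/2)|`.
(2) If `∑ √p (|f(p)| - 1/p)⁺ < ∞`, the sum over the primes `p` for which `f(p)` is not a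
nonnegative real, then `S_f = Ω(N^{-1/2})`. -/
theorem Pool.Agent.Results.MP_768c9c_nt.OmegaClasses.result :
    (∀ f : ℕ → ℂ, f 1 = 1 → (∀ m n : ℕ, 0 < m → 0 < n → f (m * n) = f m * f n) →
      (∀ p : ℕ, p.Prime → ‖f p‖ ≤ 1 / p ∨ ((f p).im = 0 ∧ 0 ≤ (f p).re)) →
      ∀ c : ℝ, c * ‖riemannZeta (1 / 2)‖ < 1 →
      ∀ M : ℕ, ∃ N : ℕ, M ≤ N ∧ 0 < N ∧
        c / Real.sqrt (N : ℝ) < ‖∑ n ∈ Finset.Icc 1 N, f n‖) ∧
    (∀ f : ℕ → ℂ, f 1 = 1 → (∀ m n : ℕ, 0 < m → 0 < n → f (m * n) = f m * f n) →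
      (Summable fun p : {p : ℕ // p.Prime ∧ ¬ ((f p).im = 0 ∧ 0 ≤ (f p).re)} =>
        Real.sqrt ((p : ℕ) : ℝ) * max 0 (‖f p‖ - 1 / ((p : ℕ) : ℝ))) →
      ∃ c : ℝ, 0 < c ∧ ∀ M : ℕ, ∃ N : ℕ, M ≤ N ∧ 0 < N ∧
        c / Real.sqrt (N : ℝ) ≤ ‖∑ n ∈ Finset.Icc 1 N, f n‖) := by
  have hnn : ∀ z : ℂ, (z.im = 0 ∧ 0 ≤ z.re) → ∀ _ : True, (0 ≤ z.re ∧ 0 = z.im) :=
    fun z h _ => ⟨h.2, h.1.symm⟩
  refine ⟨?_, ?_⟩
  · intro f h1 h2 hcl c hc M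
    refine Run7.h718.Cmo.universal ⟨h1, h2⟩ (fun p hp => ?_) hc M
    rcases hcl p hp with h | h
    · exact Or.inl h
    · exact Or.inr (Complex.le_def.mpr (by simpa using hnn _ h trivial))
  · intro f h1 h2 hsum
    exact Run7.h718.Cmo.general ⟨h1, h2⟩
      (P := fun p => (f p).im = 0 ∧ 0 ≤ (f p).re)
      (fun p _ h => Complex.le_def.mpr (by simpa using hnn _ h trivial)) hsum
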